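import Mathlib

/-!
# MP_541980_co: a misère-invertible dicot inside an evil kernel

We disprove Q1: there is an evilly normal pair `(𝒜, 𝒦)` and a game `G ∈ 𝒦` which is invertible
modulo the dicots.  With `* = {0 | 0}`, `Y = {0, * | *}` and `X = {0, * | Y}`, take for `𝒜` all
finite sums of copies of `0, *, Y, X`, for `𝒦` the sums which contain at least one copy of `X`,
and `G = X`.
-/

namespace Pool.Agent.Results.MP_541980_co.EvilKernelCounterexample

/-- Short partizan games: finite game trees, `mk m n L R` being the game with the `m` Left options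
`L 0, …, L (m-1)` and the `n` Right options `R 0, …, R (n-1)`. -/
inductive Game : Type
  | mk (m n : ℕ) (L : Fin m → Game) (R : Fin n → Game) : Game

namespace Game

/-- `IsL K G`: `K` is a Left option of `G`. -/
def IsL (K : Game) : Game → Prop
  | mk _ _ L _ => ∃ i, L i = K

/-- `IsR K G`: `K` is a Right option of `G`. -/
def IsR (K : Game) : Game → Prop
  | mk _ _ _ R => ∃ j, R j = K

/-- The game `0 = { | }`. -/
def zero : Game := mk 0 0 Fin.elim0 Fin.elim0

/-- The game `* = {0 | 0}`. -/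
def star : Game := mk 1 1 (fun _ => zero) (fun _ => zero)

/-- Auxiliary function for the sum: `addAux FL FR H` is `G + H` when `FL i` is
`K ↦ G^L_i + K` and `FR j` is `K ↦ G^R_j + K`. -/
def addAux {m n : ℕ} (FL : Fin m → Game → Game) (FR : Fin n → Game → Game) : Game → Game
  | mk m' n' L' R' =>
      mk (m + m') (n + n')
        (Fin.append (fun i => FL i (mk m' n' L' R')) (fun i => addAux FL FR (L' i)))
        (Fin.append (fun j => FR j (mk m' n' L' R')) (fun j => addAux FL FR (R' j)))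

/-- The disjunctive sum `G + H`: the Left options are the `G^L + H` and the `G + H^L`, and
similarly for Right (see `add_mk`). -/
def add : Game → Game → Game
  | mk _ _ L R => addAux (fun i => add (L i)) (fun j => add (R j))

/-- The defining equation of the disjunctive sum. -/
theorem add_mk (m n m' n' : ℕ) (L : Fin m → Game) (R : Fin n → Game) (L' : Fin m' → Game)
    (R' : Fin n' → Game) :
    add (mk m n L R) (mk m' n' L' R') =
      mk (m + m') (n + n')
        (Fin.append (fun i => add (L i) (mk m' n' L' R')) (fun i => add (mk m n L R) (L' i)))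
        (Fin.append (fun j => add (R j) (mk m' n' L' R')) (fun j => add (mk m n L R) (R' j))) :=
  rfl

/-- Normal play (the player who cannot move loses). `(nw G).1`: Left wins `G` if she moves first;
`(nw G).2`: Left wins `G` if Right moves first. -/
def nw : Game → Prop × Prop
  | mk _ _ L R => (∃ i, (nw (L i)).2, ∀ j, (nw (R j)).1)

/-- Misère play (the player who cannot move wins). `(mw G).1`: Left wins `G` if she moves first;
`(mw G).2`: Left wins `G` if Right moves first. -/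
def mw : Game → Prop × Prop
  | mk m n L R => (m = 0 ∨ ∃ i, (mw (L i)).2, n ≠ 0 ∧ ∀ j, (mw (R j)).1)

/-- The four outcome classes. -/
inductive Outcome
  | L | N | P | R

open Classical in
/-- The outcome class, from the pair (Left wins moving first, Left wins moving second):
`𝓛` if Left wins in both cases, `𝓝` if the player moving first wins, `𝓟` if the player moving
second wins, `𝓡` if Right wins in both cases. -/
noncomputable def Outcome.of (w : Prop × Prop) : Outcome :=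
  if w.1 then (if w.2 then .L else .N) else (if w.2 then .P else .R)

/-- The normal-play outcome `o⁺(G)`. -/
noncomputable def oPlus (G : Game) : Outcome := .of (nw G)

/-- The misère-play outcome `o⁻(G)`. -/
noncomputable def oMinus (G : Game) : Outcome := .of (mw G)

/-- Dicotic games: in each position, either both players have an option or none has. -/
def Dicotic : Game → Prop
  | mk m n L R => (m = 0 ↔ n = 0) ∧ (∀ i, Dicotic (L i)) ∧ ∀ j, Dicotic (R j)

/-- The set `𝒟` of dicotic games. -/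
def Dicots : Set Game := {G | Dicotic G}

/-- A set of games is closed if it is closed under sums and under taking options. -/
def Closed (A : Set Game) : Prop :=
  (∀ G ∈ A, ∀ H ∈ A, add G H ∈ A) ∧ ∀ G ∈ A, ∀ K, IsL K G ∨ IsR K G → K ∈ A

/-- `G ≡_𝒰 H`: `o⁻(G + X) = o⁻(H + X)` for all `X ∈ 𝒰`. -/
def EquivMod (U : Set Game) (G H : Game) : Prop :=
  ∀ X ∈ U, oMinus (add G X) = oMinus (add H X)

/-- `G ∈ 𝒟` is invertible modulo `𝒟`. -/
def Invertible (G : Game) : Prop :=
  G ∈ Dicots ∧ ∃ H ∈ Dicots, EquivMod Dicots (add G H) zero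

/-- `K` is an evil kernel of `A`. -/
def EvilKernel (A K : Set Game) : Prop :=
  K ⊆ A ∧ (∀ G ∈ K, oPlus G = oMinus G) ∧
    ∀ G ∈ A \ K, oPlus G = oMinus (add G star) ∧ oPlus (add G star) = oMinus G

/-- The pair `(A, K)` is evilly normal. -/
def EvillyNormal (A K : Set Game) : Prop :=
  A ⊆ Dicots ∧ Closed A ∧ EvilKernel A K ∧
    ∀ G ∈ A, ∀ H ∈ A, add G H ∉ K ↔ G ∉ K ∧ H ∉ K

/-! ### Basic lemmas -/

theorem isL_add {K G H : Game} :
    IsL K (add G H) ↔ (∃ G', IsL G' G ∧ add G' H = K) ∨ ∃ H', IsL H' H ∧ add G H' = K := by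
  obtain ⟨m, n, L, R⟩ := G
  obtain ⟨m', n', L', R'⟩ := H
  rw [add_mk]
  constructor
  · rintro ⟨i, hi⟩
    induction i using Fin.addCases with
    | left i =>
      rw [Fin.append_left] at hi
      exact Or.inl ⟨_, ⟨i, rfl⟩, hi⟩
    | right i =>
      rw [Fin.append_right] at hi
      exact Or.inr ⟨_, ⟨i, rfl⟩, hi⟩
  · rintro (⟨_, ⟨i, rfl⟩, hi⟩ | ⟨_, ⟨i, rfl⟩, hi⟩)
    · exact ⟨Fin.castAdd _ i, by rw [Fin.append_left]; exact hi⟩
    · exact ⟨Fin.natAdd _ i, by rw [Fin.append_right]; exact hi⟩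

theorem isR_add {K G H : Game} :
    IsR K (add G H) ↔ (∃ G', IsR G' G ∧ add G' H = K) ∨ ∃ H', IsR H' H ∧ add G H' = K := by
  obtain ⟨m, n, L, R⟩ := G
  obtain ⟨m', n', L', R'⟩ := H
  rw [add_mk]
  constructor
  · rintro ⟨i, hi⟩
    induction i using Fin.addCases with
    | left i =>
      rw [Fin.append_left] at hi
      exact Or.inl ⟨_, ⟨i, rfl⟩, hi⟩
    | right i =>
      rw [Fin.append_right] at hi
      exact Or.inr ⟨_, ⟨i, rfl⟩, hi⟩
  · rintro (⟨_, ⟨i, rfl⟩, hi⟩ | ⟨_, ⟨i, rfl⟩, hi⟩)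
    · exact ⟨Fin.castAdd _ i, by rw [Fin.append_left]; exact hi⟩
    · exact ⟨Fin.natAdd _ i, by rw [Fin.append_right]; exact hi⟩

theorem nw_fst {G : Game} : (nw G).1 ↔ ∃ K, IsL K G ∧ (nw K).2 := by
  obtain ⟨m, n, L, R⟩ := G
  constructor
  · rintro ⟨i, hi⟩; exact ⟨_, ⟨i, rfl⟩, hi⟩
  · rintro ⟨_, ⟨i, rfl⟩, hi⟩; exact ⟨i, hi⟩

theorem nw_snd {G : Game} : (nw G).2 ↔ ∀ K, IsR K G → (nw K).1 := by
  obtain ⟨m, n, L, R⟩ := G
  constructor
  · rintro h _ ⟨i, rfl⟩; exact h i
  · intro h i; exact h _ ⟨i, rfl⟩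

theorem mw_fst {G : Game} : (mw G).1 ↔ (∀ K, ¬ IsL K G) ∨ ∃ K, IsL K G ∧ (mw K).2 := by
  obtain ⟨m, n, L, R⟩ := G
  constructor
  · rintro (h | ⟨i, hi⟩)
    · left
      rintro K ⟨i, -⟩
      subst h
      exact i.elim0
    · exact Or.inr ⟨_, ⟨i, rfl⟩, hi⟩
  · rintro (h | ⟨_, ⟨i, rfl⟩, hi⟩)
    · left
      by_contra h0
      exact h _ ⟨⟨0, Nat.pos_of_ne_zero h0⟩, rfl⟩
    · exact Or.inr ⟨i, hi⟩

theorem mw_snd {G : Game} : (mw G).2 ↔ (∃ K, IsR K G) ∧ ∀ K, IsR K G → (mw K).1 := by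
  obtain ⟨m, n, L, R⟩ := G
  constructor
  · rintro ⟨h, h'⟩
    refine ⟨⟨_, ⟨⟨0, Nat.pos_of_ne_zero h⟩, rfl⟩⟩, ?_⟩
    rintro _ ⟨i, rfl⟩; exact h' i
  · rintro ⟨⟨_, ⟨i, -⟩⟩, h'⟩
    refine ⟨?_, fun i => h' _ ⟨i, rfl⟩⟩
    intro h
    subst h
    exact i.elim0

theorem dicotic_iff {G : Game} :
    Dicotic G ↔ ((∃ K, IsL K G) ↔ ∃ K, IsR K G) ∧ (∀ K, IsL K G → Dicotic K) ∧
      ∀ K, IsR K G → Dicotic K := by
  obtain ⟨m, n, L, R⟩ := G
  have e1 : (∃ K, IsL K (mk m n L R)) ↔ m ≠ 0 := by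
    constructor
    · rintro ⟨_, ⟨i, -⟩⟩ h
      subst h
      exact i.elim0
    · intro h
      exact ⟨_, ⟨⟨0, Nat.pos_of_ne_zero h⟩, rfl⟩⟩
  have e2 : (∃ K, IsR K (mk m n L R)) ↔ n ≠ 0 := by
    constructor
    · rintro ⟨_, ⟨i, -⟩⟩ h
      subst h
      exact i.elim0
    · intro h
      exact ⟨_, ⟨⟨0, Nat.pos_of_ne_zero h⟩, rfl⟩⟩
  rw [e1, e2]
  constructor
  · rintro ⟨h1, h2, h3⟩
    refine ⟨not_congr h1, ?_, ?_⟩
    · rintro _ ⟨i, rfl⟩; exact h2 i
    · rintro _ ⟨i, rfl⟩; exact h3 i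
  · rintro ⟨h1, h2, h3⟩
    exact ⟨not_iff_not.mp h1, fun i => h2 _ ⟨i, rfl⟩, fun j => h3 _ ⟨j, rfl⟩⟩

theorem outcome_congr {w w' : Prop × Prop} (h1 : w.1 ↔ w'.1) (h2 : w.2 ↔ w'.2) :
    Outcome.of w = Outcome.of w' := by
  have : w = w' := Prod.ext (propext h1) (propext h2)
  rw [this]

/-! ### The example -/

/-- `Y = {0, * | *}`. -/
def Y : Game := mk 2 1 ![zero, star] (fun _ => star)

/-- `X = {0, * | Y}`. -/
def X : Game := mk 2 1 ![zero, star] (fun _ => Y)

/-- `Rep a b c G`: `G` is a sum of `a` copies of `X`, `b` copies of `Y`, `c` copies of `*` and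
some copies of `0`. -/
inductive Rep : ℕ → ℕ → ℕ → Game → Prop
  | zero : Rep 0 0 0 zero
  | star : Rep 0 0 1 star
  | Y : Rep 0 1 0 Y
  | X : Rep 1 0 0 X
  | add {a b c a' b' c' : ℕ} {G H : Game} :
      Rep a b c G → Rep a' b' c' H → Rep (a + a') (b + b') (c + c') (add G H)

/-- The effect of a Left move on the numbers of copies of `X`, `Y`, `*`. -/
def LStep (a b c a' b' c' : ℕ) : Prop :=
  (a = a' ∧ b = b' ∧ c = c' + 1) ∨ (a = a' ∧ b = b' + 1 ∧ (c' = c ∨ c' = c + 1)) ∨
    (a = a' + 1 ∧ b = b' ∧ (c' = c ∨ c' = c + 1))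

/-- The effect of a Right move on the numbers of copies of `X`, `Y`, `*`. -/
def RStep (a b c a' b' c' : ℕ) : Prop :=
  (a = a' ∧ b = b' ∧ c = c' + 1) ∨ (a = a' ∧ b = b' + 1 ∧ c' = c + 1) ∨
    (a = a' + 1 ∧ b' = b + 1 ∧ c' = c)

theorem Rep.cast {a b c a' b' c' : ℕ} {G : Game} (h : Rep a b c G) (ha : a = a') (hb : b = b')
    (hc : c = c') : Rep a' b' c' G := by
  subst ha hb hc; exact h

theorem Rep.left_sound {a b c : ℕ} {G K : Game} (h : Rep a b c G) (hK : IsL K G) :
    ∃ a' b' c', LStep a b c a' b' c' ∧ Rep a' b' c' K := by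
  induction h generalizing K with
  | zero => obtain ⟨i, -⟩ := hK; exact i.elim0
  | star =>
    obtain ⟨i, rfl⟩ := hK
    exact ⟨0, 0, 0, by unfold LStep; omega, Rep.zero⟩
  | Y =>
    obtain ⟨i, rfl⟩ := hK
    fin_cases i
    · exact ⟨0, 0, 0, by unfold LStep; omega, Rep.zero⟩
    · exact ⟨0, 0, 1, by unfold LStep; omega, Rep.star⟩
  | X =>
    obtain ⟨i, rfl⟩ := hK
    fin_cases i
    · exact ⟨0, 0, 0, by unfold LStep; omega, Rep.zero⟩
    · exact ⟨0, 0, 1, by unfold LStep; omega, Rep.star⟩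
  | @add a b c a' b' c' G H hG hH ihG ihH =>
    rcases isL_add.mp hK with ⟨G', hG', rfl⟩ | ⟨H', hH', rfl⟩
    · obtain ⟨x, y, z, hs, hr⟩ := ihG hG'
      exact ⟨_, _, _, by unfold LStep at *; omega, Rep.add hr hH⟩
    · obtain ⟨x, y, z, hs, hr⟩ := ihH hH'
      exact ⟨_, _, _, by unfold LStep at *; omega, Rep.add hG hr⟩

theorem Rep.right_sound {a b c : ℕ} {G K : Game} (h : Rep a b c G) (hK : IsR K G) :
    ∃ a' b' c', RStep a b c a' b' c' ∧ Rep a' b' c' K := by
  induction h generalizing K with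
  | zero => obtain ⟨i, -⟩ := hK; exact i.elim0
  | star =>
    obtain ⟨i, rfl⟩ := hK
    exact ⟨0, 0, 0, by unfold RStep; omega, Rep.zero⟩
  | Y =>
    obtain ⟨i, rfl⟩ := hK
    exact ⟨0, 0, 1, by unfold RStep; omega, Rep.star⟩
  | X =>
    obtain ⟨i, rfl⟩ := hK
    exact ⟨0, 1, 0, by unfold RStep; omega, Rep.Y⟩
  | @add a b c a' b' c' G H hG hH ihG ihH =>
    rcases isR_add.mp hK with ⟨G', hG', rfl⟩ | ⟨H', hH', rfl⟩
    · obtain ⟨x, y, z, hs, hr⟩ := ihG hG'
      exact ⟨_, _, _, by unfold RStep at *; omega, Rep.add hr hH⟩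
    · obtain ⟨x, y, z, hs, hr⟩ := ihH hH'
      exact ⟨_, _, _, by unfold RStep at *; omega, Rep.add hG hr⟩

theorem lstep_add {a b c a₂ b₂ c₂ a' b' c' : ℕ}
    (hs : LStep (a + a₂) (b + b₂) (c + c₂) a' b' c') :
    (∃ x y z, LStep a b c x y z ∧ a' = x + a₂ ∧ b' = y + b₂ ∧ c' = z + c₂) ∨
      ∃ x y z, LStep a₂ b₂ c₂ x y z ∧ a' = a + x ∧ b' = b + y ∧ c' = c + z := by
  rcases hs with ⟨h1, h2, h3⟩ | ⟨h1, h2, h3⟩ | ⟨h1, h2, h3⟩
  · by_cases hc : 1 ≤ c
    · left
      exact ⟨a, b, c - 1, Or.inl ⟨rfl, rfl, by omega⟩, by omega, by omega, by omega⟩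
    · right
      exact ⟨a₂, b₂, c₂ - 1, Or.inl ⟨rfl, rfl, by omega⟩, by omega, by omega, by omega⟩
  · by_cases hc : 1 ≤ b
    · left
      exact ⟨a, b - 1, c' - c₂, Or.inr (Or.inl ⟨rfl, by omega, by omega⟩),
        by omega, by omega, by omega⟩
    · right
      exact ⟨a₂, b₂ - 1, c' - c, Or.inr (Or.inl ⟨rfl, by omega, by omega⟩),
        by omega, by omega, by omega⟩
  · by_cases hc : 1 ≤ a
    · left
      exact ⟨a - 1, b, c' - c₂, Or.inr (Or.inr ⟨by omega, rfl, by omega⟩),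
        by omega, by omega, by omega⟩
    · right
      exact ⟨a₂ - 1, b₂, c' - c, Or.inr (Or.inr ⟨by omega, rfl, by omega⟩),
        by omega, by omega, by omega⟩

theorem rstep_add {a b c a₂ b₂ c₂ a' b' c' : ℕ}
    (hs : RStep (a + a₂) (b + b₂) (c + c₂) a' b' c') :
    (∃ x y z, RStep a b c x y z ∧ a' = x + a₂ ∧ b' = y + b₂ ∧ c' = z + c₂) ∨
      ∃ x y z, RStep a₂ b₂ c₂ x y z ∧ a' = a + x ∧ b' = b + y ∧ c' = c + z := by
  rcases hs with ⟨h1, h2, h3⟩ | ⟨h1, h2, h3⟩ | ⟨h1, h2, h3⟩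
  · by_cases hc : 1 ≤ c
    · left
      exact ⟨a, b, c - 1, Or.inl ⟨rfl, rfl, by omega⟩, by omega, by omega, by omega⟩
    · right
      exact ⟨a₂, b₂, c₂ - 1, Or.inl ⟨rfl, rfl, by omega⟩, by omega, by omega, by omega⟩
  · by_cases hc : 1 ≤ b
    · left
      exact ⟨a, b - 1, c + 1, Or.inr (Or.inl ⟨rfl, by omega, rfl⟩),
        by omega, by omega, by omega⟩
    · right
      exact ⟨a₂, b₂ - 1, c₂ + 1, Or.inr (Or.inl ⟨rfl, by omega, rfl⟩),
        by omega, by omega, by omega⟩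
  · by_cases hc : 1 ≤ a
    · left
      exact ⟨a - 1, b + 1, c, Or.inr (Or.inr ⟨by omega, rfl, rfl⟩),
        by omega, by omega, by omega⟩
    · right
      exact ⟨a₂ - 1, b₂ + 1, c₂, Or.inr (Or.inr ⟨by omega, rfl, rfl⟩),
        by omega, by omega, by omega⟩

theorem Rep.left_complete {a b c : ℕ} {G : Game} (h : Rep a b c G) :
    ∀ {a' b' c' : ℕ}, LStep a b c a' b' c' → ∃ K, IsL K G ∧ Rep a' b' c' K := by
  induction h with
  | zero => intro a' b' c' hs; unfold LStep at hs; omega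
  | star =>
    intro a' b' c' hs
    exact ⟨_, ⟨0, rfl⟩, Rep.zero.cast (by unfold LStep at hs; omega)
      (by unfold LStep at hs; omega) (by unfold LStep at hs; omega)⟩
  | Y =>
    intro a' b' c' hs
    by_cases hc : c' = 0
    · exact ⟨_, ⟨0, rfl⟩, Rep.zero.cast (by unfold LStep at hs; omega)
        (by unfold LStep at hs; omega) (by unfold LStep at hs; omega)⟩
    · exact ⟨_, ⟨1, rfl⟩, Rep.star.cast (by unfold LStep at hs; omega)
        (by unfold LStep at hs; omega) (by unfold LStep at hs; omega)⟩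
  | X =>
    intro a' b' c' hs
    by_cases hc : c' = 0
    · exact ⟨_, ⟨0, rfl⟩, Rep.zero.cast (by unfold LStep at hs; omega)
        (by unfold LStep at hs; omega) (by unfold LStep at hs; omega)⟩
    · exact ⟨_, ⟨1, rfl⟩, Rep.star.cast (by unfold LStep at hs; omega)
        (by unfold LStep at hs; omega) (by unfold LStep at hs; omega)⟩
  | @add a b c a₂ b₂ c₂ G H hG hH ihG ihH =>
    intro a' b' c' hs
    rcases lstep_add hs with ⟨x, y, z, hs', ha, hb, hc⟩ | ⟨x, y, z, hs', ha, hb, hc⟩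
    · obtain ⟨K, hK, hr⟩ := ihG hs'
      exact ⟨_, isL_add.mpr (Or.inl ⟨K, hK, rfl⟩),
        (Rep.add hr hH).cast ha.symm hb.symm hc.symm⟩
    · obtain ⟨K, hK, hr⟩ := ihH hs'
      exact ⟨_, isL_add.mpr (Or.inr ⟨K, hK, rfl⟩),
        (Rep.add hG hr).cast ha.symm hb.symm hc.symm⟩

theorem Rep.right_complete {a b c : ℕ} {G : Game} (h : Rep a b c G) :
    ∀ {a' b' c' : ℕ}, RStep a b c a' b' c' → ∃ K, IsR K G ∧ Rep a' b' c' K := by
  induction h with
  | zero => intro a' b' c' hs; unfold RStep at hs; omega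
  | star =>
    intro a' b' c' hs
    exact ⟨_, ⟨0, rfl⟩, Rep.zero.cast (by unfold RStep at hs; omega)
      (by unfold RStep at hs; omega) (by unfold RStep at hs; omega)⟩
  | Y =>
    intro a' b' c' hs
    exact ⟨_, ⟨0, rfl⟩, Rep.star.cast (by unfold RStep at hs; omega)
      (by unfold RStep at hs; omega) (by unfold RStep at hs; omega)⟩
  | X =>
    intro a' b' c' hs
    exact ⟨_, ⟨0, rfl⟩, Rep.Y.cast (by unfold RStep at hs; omega)
      (by unfold RStep at hs; omega) (by unfold RStep at hs; omega)⟩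
  | @add a b c a₂ b₂ c₂ G H hG hH ihG ihH =>
    intro a' b' c' hs
    rcases rstep_add hs with ⟨x, y, z, hs', ha, hb, hc⟩ | ⟨x, y, z, hs', ha, hb, hc⟩
    · obtain ⟨K, hK, hr⟩ := ihG hs'
      exact ⟨_, isR_add.mpr (Or.inl ⟨K, hK, rfl⟩),
        (Rep.add hr hH).cast ha.symm hb.symm hc.symm⟩
    · obtain ⟨K, hK, hr⟩ := ihH hs'
      exact ⟨_, isR_add.mpr (Or.inr ⟨K, hK, rfl⟩),
        (Rep.add hG hr).cast ha.symm hb.symm hc.symm⟩

/-- The outcomes of all the sums. -/
theorem Rep.outcomes : ∀ (N a b c : ℕ) (G : Game), 3 * a + 2 * b + c = N → Rep a b c G →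
    ((nw G).1 ↔ (1 ≤ a ∨ 1 ≤ b ∨ c % 2 = 1)) ∧ ((nw G).2 ↔ (1 ≤ a ∨ 2 ≤ b ∨ c % 2 = 0)) ∧
    ((mw G).1 ↔ (1 ≤ a ∨ 1 ≤ b ∨ c % 2 = 0)) ∧ ((mw G).2 ↔ (1 ≤ a ∨ 2 ≤ b ∨ c % 2 = 1)) := by
  intro N
  induction N using Nat.strong_induction_on with
  | _ N ih =>
    intro a b c G hN hG
    have ihL : ∀ {a' b' c' : ℕ} {K : Game}, LStep a b c a' b' c' → Rep a' b' c' K →
        ((nw K).1 ↔ (1 ≤ a' ∨ 1 ≤ b' ∨ c' % 2 = 1)) ∧ ((nw K).2 ↔ (1 ≤ a' ∨ 2 ≤ b' ∨ c' % 2 = 0)) ∧
        ((mw K).1 ↔ (1 ≤ a' ∨ 1 ≤ b' ∨ c' % 2 = 0)) ∧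
        ((mw K).2 ↔ (1 ≤ a' ∨ 2 ≤ b' ∨ c' % 2 = 1)) := by
      intro a' b' c' K hs hK
      refine ih (3 * a' + 2 * b' + c') ?_ a' b' c' K rfl hK
      unfold LStep at hs
      omega
    have ihR : ∀ {a' b' c' : ℕ} {K : Game}, RStep a b c a' b' c' → Rep a' b' c' K →
        ((nw K).1 ↔ (1 ≤ a' ∨ 1 ≤ b' ∨ c' % 2 = 1)) ∧ ((nw K).2 ↔ (1 ≤ a' ∨ 2 ≤ b' ∨ c' % 2 = 0)) ∧
        ((mw K).1 ↔ (1 ≤ a' ∨ 1 ≤ b' ∨ c' % 2 = 0)) ∧
        ((mw K).2 ↔ (1 ≤ a' ∨ 2 ≤ b' ∨ c' % 2 = 1)) := by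
      intro a' b' c' K hs hK
      refine ih (3 * a' + 2 * b' + c') ?_ a' b' c' K rfl hK
      unfold RStep at hs
      omega
    refine ⟨?_, ?_, ?_, ?_⟩
    · rw [nw_fst]
      constructor
      · rintro ⟨K, hK, hw⟩
        obtain ⟨a', b', c', hs, hr⟩ := hG.left_sound hK
        rw [(ihL hs hr).2.1] at hw
        unfold LStep at hs
        omega
      · intro h
        have : ∃ a' b' c', LStep a b c a' b' c' ∧ (1 ≤ a' ∨ 2 ≤ b' ∨ c' % 2 = 0) := by
          by_cases ha : 1 ≤ a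
          · exact ⟨a - 1, b, c + c % 2, by unfold LStep; omega, by omega⟩
          · by_cases hb : 1 ≤ b
            · exact ⟨a, b - 1, c + c % 2, by unfold LStep; omega, by omega⟩
            · exact ⟨a, b, c - 1, by unfold LStep; omega, by omega⟩
        obtain ⟨a', b', c', hs, hc⟩ := this
        obtain ⟨K, hK, hr⟩ := hG.left_complete hs
        exact ⟨K, hK, (ihL hs hr).2.1.mpr hc⟩
    · rw [nw_snd]
      constructor
      · intro h
        by_contra hcon
        have : ∃ a' b' c', RStep a b c a' b' c' ∧ ¬ (1 ≤ a' ∨ 1 ≤ b' ∨ c' % 2 = 1) := by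
          by_cases hb : 1 ≤ b
          · exact ⟨a, b - 1, c + 1, by unfold RStep; omega, by omega⟩
          · exact ⟨a, b, c - 1, by unfold RStep; omega, by omega⟩
        obtain ⟨a', b', c', hs, hc⟩ := this
        obtain ⟨K, hK, hr⟩ := hG.right_complete hs
        exact hc ((ihR hs hr).1.mp (h K hK))
      · intro h K hK
        obtain ⟨a', b', c', hs, hr⟩ := hG.right_sound hK
        rw [(ihR hs hr).1]
        unfold RStep at hs
        omega
    · rw [mw_fst]
      constructor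
      · rintro (h0 | ⟨K, hK, hw⟩)
        · by_contra hcon
          have hs : LStep a b c a b (c - 1) := by unfold LStep; omega
          obtain ⟨K, hK, -⟩ := hG.left_complete hs
          exact h0 K hK
        · obtain ⟨a', b', c', hs, hr⟩ := hG.left_sound hK
          rw [(ihL hs hr).2.2.2] at hw
          unfold LStep at hs
          omega
      · intro h
        by_cases h0 : a = 0 ∧ b = 0 ∧ c = 0
        · left
          intro K hK
          obtain ⟨a', b', c', hs, hr⟩ := hG.left_sound hK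
          unfold LStep at hs
          omega
        · right
          have : ∃ a' b' c', LStep a b c a' b' c' ∧ (1 ≤ a' ∨ 2 ≤ b' ∨ c' % 2 = 1) := by
            by_cases ha : 1 ≤ a
            · exact ⟨a - 1, b, c + (c + 1) % 2, by unfold LStep; omega, by omega⟩
            · by_cases hb : 1 ≤ b
              · exact ⟨a, b - 1, c + (c + 1) % 2, by unfold LStep; omega, by omega⟩
              · exact ⟨a, b, c - 1, by unfold LStep; omega, by omega⟩
          obtain ⟨a', b', c', hs, hc⟩ := this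
          obtain ⟨K, hK, hr⟩ := hG.left_complete hs
          exact ⟨K, hK, (ihL hs hr).2.2.2.mpr hc⟩
    · rw [mw_snd]
      constructor
      · rintro ⟨⟨K₀, hK₀⟩, h⟩
        obtain ⟨a₀, b₀, c₀, hs₀, -⟩ := hG.right_sound hK₀
        by_contra hcon
        have : ∃ a' b' c', RStep a b c a' b' c' ∧ ¬ (1 ≤ a' ∨ 1 ≤ b' ∨ c' % 2 = 0) := by
          by_cases hb : 1 ≤ b
          · exact ⟨a, b - 1, c + 1, by unfold RStep; omega, by omega⟩
          · exact ⟨a, b, c - 1, by unfold RStep at *; omega, by unfold RStep at *; omega⟩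
        obtain ⟨a', b', c', hs, hc⟩ := this
        obtain ⟨K, hK, hr⟩ := hG.right_complete hs
        exact hc ((ihR hs hr).2.2.1.mp (h K hK))
      · intro h
        constructor
        · have : ∃ a' b' c', RStep a b c a' b' c' := by
            by_cases ha : 1 ≤ a
            · exact ⟨a - 1, b + 1, c, by unfold RStep; omega⟩
            · by_cases hb : 1 ≤ b
              · exact ⟨a, b - 1, c + 1, by unfold RStep; omega⟩
              · exact ⟨a, b, c - 1, by unfold RStep; omega⟩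
          obtain ⟨a', b', c', hs⟩ := this
          obtain ⟨K, hK, -⟩ := hG.right_complete hs
          exact ⟨K, hK⟩
        · intro K hK
          obtain ⟨a', b', c', hs, hr⟩ := hG.right_sound hK
          rw [(ihR hs hr).2.2.1]
          unfold RStep at hs
          omega

/-! ### Longest runs of consecutive moves by one player -/

/-- The length of the longest sequence of consecutive Left moves. -/
def lrun : Game → ℕ
  | mk _ _ L _ => Finset.univ.sup fun i => lrun (L i) + 1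

/-- The length of the longest sequence of consecutive Right moves. -/
def rrun : Game → ℕ
  | mk _ _ _ R => Finset.univ.sup fun j => rrun (R j) + 1

theorem lrun_lt {K G : Game} (h : IsL K G) : lrun K + 1 ≤ lrun G := by
  obtain ⟨m, n, L, R⟩ := G
  obtain ⟨i, rfl⟩ := h
  exact Finset.le_sup (f := fun i => lrun (L i) + 1) (Finset.mem_univ i)

theorem rrun_lt {K G : Game} (h : IsR K G) : rrun K + 1 ≤ rrun G := by
  obtain ⟨m, n, L, R⟩ := G
  obtain ⟨i, rfl⟩ := h
  exact Finset.le_sup (f := fun i => rrun (R i) + 1) (Finset.mem_univ i)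

theorem lrun_le {G : Game} {n : ℕ} (h : ∀ K, IsL K G → lrun K + 1 ≤ n) : lrun G ≤ n := by
  obtain ⟨m, n', L, R⟩ := G
  exact Finset.sup_le fun i _ => h _ ⟨i, rfl⟩

theorem rrun_le {G : Game} {n : ℕ} (h : ∀ K, IsR K G → rrun K + 1 ≤ n) : rrun G ≤ n := by
  obtain ⟨m, n', L, R⟩ := G
  exact Finset.sup_le fun i _ => h _ ⟨i, rfl⟩

theorem Rep.runs : ∀ (N a b c : ℕ) (G : Game), 3 * a + 2 * b + c = N → Rep a b c G →
    lrun G = 2 * a + 2 * b + c ∧ rrun G = 3 * a + 2 * b + c := by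
  intro N
  induction N using Nat.strong_induction_on with
  | _ N ih =>
    intro a b c G hN hG
    have ihL : ∀ {a' b' c' : ℕ} {K : Game}, LStep a b c a' b' c' → Rep a' b' c' K →
        lrun K = 2 * a' + 2 * b' + c' := by
      intro a' b' c' K hs hK
      refine (ih (3 * a' + 2 * b' + c') ?_ a' b' c' K rfl hK).1
      unfold LStep at hs
      omega
    have ihR : ∀ {a' b' c' : ℕ} {K : Game}, RStep a b c a' b' c' → Rep a' b' c' K →
        rrun K = 3 * a' + 2 * b' + c' := by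
      intro a' b' c' K hs hK
      refine (ih (3 * a' + 2 * b' + c') ?_ a' b' c' K rfl hK).2
      unfold RStep at hs
      omega
    constructor
    · apply le_antisymm
      · apply lrun_le
        intro K hK
        obtain ⟨a', b', c', hs, hr⟩ := hG.left_sound hK
        rw [ihL hs hr]
        unfold LStep at hs
        omega
      · by_cases h0 : a = 0 ∧ b = 0 ∧ c = 0
        · omega
        · have : ∃ a' b' c', LStep a b c a' b' c' ∧
              2 * a + 2 * b + c = 2 * a' + 2 * b' + c' + 1 := by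
            by_cases ha : 1 ≤ a
            · exact ⟨a - 1, b, c + 1, by unfold LStep; omega, by omega⟩
            · by_cases hb : 1 ≤ b
              · exact ⟨a, b - 1, c + 1, by unfold LStep; omega, by omega⟩
              · exact ⟨a, b, c - 1, by unfold LStep; omega, by omega⟩
          obtain ⟨a', b', c', hs, he⟩ := this
          obtain ⟨K, hK, hr⟩ := hG.left_complete hs
          have := lrun_lt hK
          rw [ihL hs hr] at this
          omega
    · apply le_antisymm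
      · apply rrun_le
        intro K hK
        obtain ⟨a', b', c', hs, hr⟩ := hG.right_sound hK
        rw [ihR hs hr]
        unfold RStep at hs
        omega
      · by_cases h0 : a = 0 ∧ b = 0 ∧ c = 0
        · omega
        · have : ∃ a' b' c', RStep a b c a' b' c' ∧
              3 * a + 2 * b + c = 3 * a' + 2 * b' + c' + 1 := by
            by_cases ha : 1 ≤ a
            · exact ⟨a - 1, b + 1, c, by unfold RStep; omega, by omega⟩
            · by_cases hb : 1 ≤ b
              · exact ⟨a, b - 1, c + 1, by unfold RStep; omega, by omega⟩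
              · exact ⟨a, b, c - 1, by unfold RStep; omega, by omega⟩
          obtain ⟨a', b', c', hs, he⟩ := this
          obtain ⟨K, hK, hr⟩ := hG.right_complete hs
          have := rrun_lt hK
          rw [ihR hs hr] at this
          omega

theorem Rep.unique {a b c a' b' c' : ℕ} {G : Game} (h : Rep a b c G) (h' : Rep a' b' c' G) :
    a = a' := by
  have h1 := Rep.runs _ _ _ _ _ rfl h
  have h2 := Rep.runs _ _ _ _ _ rfl h'
  omega

theorem Rep.dicotic : ∀ (N a b c : ℕ) (G : Game), 3 * a + 2 * b + c = N → Rep a b c G →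
    Dicotic G := by
  intro N
  induction N using Nat.strong_induction_on with
  | _ N ih =>
    intro a b c G hN hG
    rw [dicotic_iff]
    refine ⟨?_, ?_, ?_⟩
    · constructor
      · rintro ⟨K, hK⟩
        obtain ⟨x, y, z, hs, -⟩ := hG.left_sound hK
        have : ∃ a' b' c', RStep a b c a' b' c' := by
          by_cases ha : 1 ≤ a
          · exact ⟨a - 1, b + 1, c, by unfold RStep; omega⟩
          · by_cases hb : 1 ≤ b
            · exact ⟨a, b - 1, c + 1, by unfold RStep; omega⟩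
            · exact ⟨a, b, c - 1, by unfold RStep; unfold LStep at hs; omega⟩
        obtain ⟨a', b', c', hs'⟩ := this
        obtain ⟨K', hK', -⟩ := hG.right_complete hs'
        exact ⟨K', hK'⟩
      · rintro ⟨K, hK⟩
        obtain ⟨x, y, z, hs, -⟩ := hG.right_sound hK
        have : ∃ a' b' c', LStep a b c a' b' c' := by
          by_cases ha : 1 ≤ a
          · exact ⟨a - 1, b, c, by unfold LStep; omega⟩
          · by_cases hb : 1 ≤ b
            · exact ⟨a, b - 1, c, by unfold LStep; omega⟩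
            · exact ⟨a, b, c - 1, by unfold LStep; unfold RStep at hs; omega⟩
        obtain ⟨a', b', c', hs'⟩ := this
        obtain ⟨K', hK', -⟩ := hG.left_complete hs'
        exact ⟨K', hK'⟩
    · intro K hK
      obtain ⟨a', b', c', hs, hr⟩ := hG.left_sound hK
      refine ih (3 * a' + 2 * b' + c') ?_ a' b' c' K rfl hr
      unfold LStep at hs
      omega
    · intro K hK
      obtain ⟨a', b', c', hs, hr⟩ := hG.right_sound hK
      refine ih (3 * a' + 2 * b' + c') ?_ a' b' c' K rfl hr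
      unfold RStep at hs
      omega

/-! ### The evilly normal pair -/

/-- All finite sums of copies of `0, *, Y, X`. -/
def exA : Set Game := {G | ∃ a b c, Rep a b c G}

/-- The sums with at least one copy of `X`. -/
def exK : Set Game := {G | ∃ a b c, Rep a b c G ∧ 1 ≤ a}

theorem Rep.mem_exK {a b c : ℕ} {G : Game} (h : Rep a b c G) : G ∈ exK ↔ 1 ≤ a := by
  constructor
  · rintro ⟨a', b', c', h', ha⟩
    rw [h.unique h']
    exact ha
  · intro ha
    exact ⟨a, b, c, h, ha⟩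

theorem evillyNormal : EvillyNormal exA exK := by
  refine ⟨?_, ⟨?_, ?_⟩, ⟨?_, ?_, ?_⟩, ?_⟩
  · rintro G ⟨a, b, c, h⟩
    exact Rep.dicotic _ _ _ _ _ rfl h
  · rintro G ⟨a, b, c, h⟩ H ⟨a', b', c', h'⟩
    exact ⟨_, _, _, Rep.add h h'⟩
  · rintro G ⟨a, b, c, h⟩ K (hK | hK)
    · obtain ⟨a', b', c', -, hr⟩ := h.left_sound hK
      exact ⟨a', b', c', hr⟩
    · obtain ⟨a', b', c', -, hr⟩ := h.right_sound hK
      exact ⟨a', b', c', hr⟩
  · rintro G ⟨a, b, c, h, -⟩
    exact ⟨a, b, c, h⟩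
  · rintro G ⟨a, b, c, h, ha⟩
    have ho := Rep.outcomes _ _ _ _ _ rfl h
    apply outcome_congr
    · rw [ho.1, ho.2.2.1]; omega
    · rw [ho.2.1, ho.2.2.2]; omega
  · rintro G ⟨⟨a, b, c, h⟩, hK⟩
    rw [h.mem_exK] at hK
    have ho := Rep.outcomes _ _ _ _ _ rfl h
    have hs := Rep.outcomes _ _ _ _ _ rfl (Rep.add h Rep.star)
    constructor
    · apply outcome_congr
      · rw [ho.1, hs.2.2.1]; omega
      · rw [ho.2.1, hs.2.2.2]; omega
    · apply outcome_congr
      · rw [hs.1, ho.2.2.1]; omega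
      · rw [hs.2.1, ho.2.2.2]; omega
  · rintro G ⟨a, b, c, h⟩ H ⟨a', b', c', h'⟩
    rw [(Rep.add h h').mem_exK, h.mem_exK, h'.mem_exK]
    omega

/-! ### Invertibility of `X` -/

/-- The conjugate of a game: exchange the roles of the players. -/
def neg : Game → Game
  | mk m n L R => mk n m (fun j => neg (R j)) (fun i => neg (L i))

theorem isL_neg {K G : Game} : IsL K (neg G) ↔ ∃ K', IsR K' G ∧ neg K' = K := by
  obtain ⟨m, n, L, R⟩ := G
  constructor
  · rintro ⟨i, hi⟩; exact ⟨_, ⟨i, rfl⟩, hi⟩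
  · rintro ⟨_, ⟨i, rfl⟩, hi⟩; exact ⟨i, hi⟩

theorem isR_neg {K G : Game} : IsR K (neg G) ↔ ∃ K', IsL K' G ∧ neg K' = K := by
  obtain ⟨m, n, L, R⟩ := G
  constructor
  · rintro ⟨i, hi⟩; exact ⟨_, ⟨i, rfl⟩, hi⟩
  · rintro ⟨_, ⟨i, rfl⟩, hi⟩; exact ⟨i, hi⟩

theorem dicotic_neg : ∀ {G : Game}, Dicotic G → Dicotic (neg G)
  | mk _ _ _ _, ⟨h1, h2, h3⟩ => ⟨h1.symm, fun j => dicotic_neg (h3 j), fun i => dicotic_neg (h2 i)⟩

theorem not_isL_zero {K : Game} : ¬ IsL K zero := by
  rintro ⟨i, -⟩; exact i.elim0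

theorem not_isR_zero {K : Game} : ¬ IsR K zero := by
  rintro ⟨i, -⟩; exact i.elim0

/-- A game without options of either player is (literally) `0`. -/
theorem eq_zero {G : Game} (h1 : ∀ K, ¬ IsL K G) (h2 : ∀ K, ¬ IsR K G) : G = zero := by
  obtain ⟨m, n, L, R⟩ := G
  have hm : m = 0 := by
    by_contra h
    exact h1 _ ⟨⟨0, Nat.pos_of_ne_zero h⟩, rfl⟩
  have hn : n = 0 := by
    by_contra h
    exact h2 _ ⟨⟨0, Nat.pos_of_ne_zero h⟩, rfl⟩
  subst hm hn
  unfold zero
  congr 1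
  · funext i; exact i.elim0
  · funext i; exact i.elim0

theorem mw_add_zero : ∀ (G : Game), ((mw (add G zero)).1 ↔ (mw G).1) ∧
    ((mw (add G zero)).2 ↔ (mw G).2) := by
  intro G
  induction G with
  | mk m n L R ihL ihR =>
    have eL : ∀ K, IsL K (add (mk m n L R) zero) ↔ ∃ i, add (L i) zero = K := by
      intro K
      rw [isL_add]
      constructor
      · rintro (⟨_, ⟨i, rfl⟩, h⟩ | ⟨_, h, -⟩)
        · exact ⟨i, h⟩
        · exact absurd h not_isL_zero
      · rintro ⟨i, h⟩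
        exact Or.inl ⟨_, ⟨i, rfl⟩, h⟩
    have eR : ∀ K, IsR K (add (mk m n L R) zero) ↔ ∃ i, add (R i) zero = K := by
      intro K
      rw [isR_add]
      constructor
      · rintro (⟨_, ⟨i, rfl⟩, h⟩ | ⟨_, h, -⟩)
        · exact ⟨i, h⟩
        · exact absurd h not_isR_zero
      · rintro ⟨i, h⟩
        exact Or.inl ⟨_, ⟨i, rfl⟩, h⟩
    constructor
    · rw [mw_fst, mw_fst]
      constructor
      · rintro (h | ⟨K, hK, hw⟩)
        · left
          rintro K ⟨i, -⟩
          exact h _ ((eL _).mpr ⟨i, rfl⟩)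
        · obtain ⟨i, rfl⟩ := (eL K).mp hK
          exact Or.inr ⟨L i, ⟨i, rfl⟩, (ihL i).2.mp hw⟩
      · rintro (h | ⟨K, ⟨i, rfl⟩, hw⟩)
        · left
          intro K hK
          obtain ⟨i, -⟩ := (eL K).mp hK
          exact h _ ⟨i, rfl⟩
        · exact Or.inr ⟨_, (eL _).mpr ⟨i, rfl⟩, (ihL i).2.mpr hw⟩
    · rw [mw_snd, mw_snd]
      constructor
      · rintro ⟨⟨K, hK⟩, h⟩
        obtain ⟨i, -⟩ := (eR K).mp hK
        refine ⟨⟨R i, ⟨i, rfl⟩⟩, ?_⟩
        rintro _ ⟨j, rfl⟩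
        exact (ihR j).1.mp (h _ ((eR _).mpr ⟨j, rfl⟩))
      · rintro ⟨⟨K, ⟨i, rfl⟩⟩, h⟩
        refine ⟨⟨_, (eR _).mpr ⟨i, rfl⟩⟩, ?_⟩
        intro K' hK'
        obtain ⟨j, rfl⟩ := (eR K').mp hK'
        exact (ihR j).1.mpr (h _ ⟨j, rfl⟩)

theorem mw_zero_add : ∀ (G : Game), ((mw (add zero G)).1 ↔ (mw G).1) ∧
    ((mw (add zero G)).2 ↔ (mw G).2) := by
  intro G
  induction G with
  | mk m n L R ihL ihR =>
    have eL : ∀ K, IsL K (add zero (mk m n L R)) ↔ ∃ i, add zero (L i) = K := by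
      intro K
      rw [isL_add]
      constructor
      · rintro (⟨_, h, -⟩ | ⟨_, ⟨i, rfl⟩, h⟩)
        · exact absurd h not_isL_zero
        · exact ⟨i, h⟩
      · rintro ⟨i, h⟩
        exact Or.inr ⟨_, ⟨i, rfl⟩, h⟩
    have eR : ∀ K, IsR K (add zero (mk m n L R)) ↔ ∃ i, add zero (R i) = K := by
      intro K
      rw [isR_add]
      constructor
      · rintro (⟨_, h, -⟩ | ⟨_, ⟨i, rfl⟩, h⟩)
        · exact absurd h not_isR_zero
        · exact ⟨i, h⟩
      · rintro ⟨i, h⟩
        exact Or.inr ⟨_, ⟨i, rfl⟩, h⟩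
    constructor
    · rw [mw_fst, mw_fst]
      constructor
      · rintro (h | ⟨K, hK, hw⟩)
        · left
          rintro K ⟨i, -⟩
          exact h _ ((eL _).mpr ⟨i, rfl⟩)
        · obtain ⟨i, rfl⟩ := (eL K).mp hK
          exact Or.inr ⟨L i, ⟨i, rfl⟩, (ihL i).2.mp hw⟩
      · rintro (h | ⟨K, ⟨i, rfl⟩, hw⟩)
        · left
          intro K hK
          obtain ⟨i, -⟩ := (eL K).mp hK
          exact h _ ⟨i, rfl⟩
        · exact Or.inr ⟨_, (eL _).mpr ⟨i, rfl⟩, (ihL i).2.mpr hw⟩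
    · rw [mw_snd, mw_snd]
      constructor
      · rintro ⟨⟨K, hK⟩, h⟩
        obtain ⟨i, -⟩ := (eR K).mp hK
        refine ⟨⟨R i, ⟨i, rfl⟩⟩, ?_⟩
        rintro _ ⟨j, rfl⟩
        exact (ihR j).1.mp (h _ ((eR _).mpr ⟨j, rfl⟩))
      · rintro ⟨⟨K, ⟨i, rfl⟩⟩, h⟩
        refine ⟨⟨_, (eR _).mpr ⟨i, rfl⟩⟩, ?_⟩
        intro K' hK'
        obtain ⟨j, rfl⟩ := (eR K').mp hK'
        exact (ihR j).1.mpr (h _ ⟨j, rfl⟩)

/-- The mirror strategy: if `G + Ḡ` is a misère first-player win for all `G` in a set `S` closed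
under options, then `G + Ḡ + T` has the outcome of `T`, for all dicots `T` and all `G ∈ S`. -/
theorem mirror (S : Game → Prop) (hSL : ∀ G, S G → ∀ K, IsL K G → S K)
    (hSR : ∀ G, S G → ∀ K, IsR K G → S K)
    (hS1 : ∀ G, S G → (mw (add G (neg G))).1) (hS2 : ∀ G, S G → ¬ (mw (add G (neg G))).2) :
    ∀ (T : Game), Dicotic T → ∀ G, S G →
      ((mw (add (add G (neg G)) T)).1 ↔ (mw T).1) ∧ ((mw (add (add G (neg G)) T)).2 ↔ (mw T).2) := by
  intro T
  induction T with
  | mk m n L R ihL ihR =>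
    intro hT G
    have hTL : ∀ K, IsL K (mk m n L R) → ∀ G, S G →
        ((mw (add (add G (neg G)) K)).1 ↔ (mw K).1) ∧
          ((mw (add (add G (neg G)) K)).2 ↔ (mw K).2) := by
      rintro _ ⟨i, rfl⟩
      exact ihL i (hT.2.1 i)
    have hTR : ∀ K, IsR K (mk m n L R) → ∀ G, S G →
        ((mw (add (add G (neg G)) K)).1 ↔ (mw K).1) ∧
          ((mw (add (add G (neg G)) K)).2 ↔ (mw K).2) := by
      rintro _ ⟨i, rfl⟩
      exact ihR i (hT.2.2 i)
    have hT' := dicotic_iff.mp hT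
    clear ihL ihR
    generalize mk m n L R = T at *
    induction G with
    | mk m' n' L' R' ihL' ihR' =>
      intro hG
      have hGL : ∀ K, IsL K (mk m' n' L' R') → ((mw (add (add K (neg K)) T)).1 ↔ (mw T).1) ∧
          ((mw (add (add K (neg K)) T)).2 ↔ (mw T).2) := by
        rintro _ ⟨i, rfl⟩
        exact ihL' i (hSL _ hG _ ⟨i, rfl⟩)
      have hGR : ∀ K, IsR K (mk m' n' L' R') → ((mw (add (add K (neg K)) T)).1 ↔ (mw T).1) ∧
          ((mw (add (add K (neg K)) T)).2 ↔ (mw T).2) := by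
        rintro _ ⟨i, rfl⟩
        exact ihR' i (hSR _ hG _ ⟨i, rfl⟩)
      clear ihL' ihR'
      generalize mk m' n' L' R' = G at *
      -- the four implications
      have c1 : (mw T).1 → (mw (add (add G (neg G)) T)).1 := by
        intro h
        rcases mw_fst.mp h with h0 | ⟨K, hK, hw⟩
        · have hT0 : T = zero := by
            apply eq_zero h0
            intro K hK
            obtain ⟨K', hK'⟩ := hT'.1.mpr ⟨K, hK⟩
            exact h0 K' hK'
          rw [hT0, (mw_add_zero _).1]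
          exact hS1 G hG
        · refine mw_fst.mpr (Or.inr ⟨_, isL_add.mpr (Or.inr ⟨K, hK, rfl⟩), ?_⟩)
          exact (hTL K hK G hG).2.mpr hw
      have c4 : ¬ (mw T).2 → ¬ (mw (add (add G (neg G)) T)).2 := by
        intro h h'
        have h2 := mw_snd.mp h'
        apply h
        by_cases hR : ∃ K, IsR K T
        · refine mw_snd.mpr ⟨hR, fun K hK => ?_⟩
          exact (hTR K hK G hG).1.mp (h2.2 _ (isR_add.mpr (Or.inr ⟨K, hK, rfl⟩)))
        · exfalso
          have hT0 : T = zero := by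
            apply eq_zero
            · intro K hK
              exact hR (hT'.1.mp ⟨K, hK⟩)
            · intro K hK
              exact hR ⟨K, hK⟩
          rw [hT0, (mw_add_zero _).2] at h'
          exact hS2 G hG h'
      have c2 : (mw T).2 → (mw (add (add G (neg G)) T)).2 := by
        intro h
        obtain ⟨⟨K₀, hK₀⟩, hall⟩ := mw_snd.mp h
        refine mw_snd.mpr ⟨⟨_, isR_add.mpr (Or.inr ⟨K₀, hK₀, rfl⟩)⟩, ?_⟩
        intro K hK
        rcases isR_add.mp hK with ⟨D, hD, rfl⟩ | ⟨K', hK', rfl⟩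
        · rcases isR_add.mp hD with ⟨G', hG', rfl⟩ | ⟨N', hN', rfl⟩
          · -- Right moves `G → G'`, Left answers `neg G → neg G'`
            refine mw_fst.mpr (Or.inr ⟨add (add G' (neg G')) T, ?_, (hGR G' hG').2.mpr h⟩)
            exact isL_add.mpr (Or.inl ⟨_, isL_add.mpr (Or.inr ⟨_, isL_neg.mpr ⟨G', hG', rfl⟩,
              rfl⟩), rfl⟩)
          · obtain ⟨G', hG', rfl⟩ := isR_neg.mp hN'
            refine mw_fst.mpr (Or.inr ⟨add (add G' (neg G')) T, ?_, (hGL G' hG').2.mpr h⟩)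
            exact isL_add.mpr (Or.inl ⟨_, isL_add.mpr (Or.inl ⟨_, hG', rfl⟩), rfl⟩)
        · exact (hTR K' hK' G hG).1.mpr (hall K' hK')
      have c3 : ¬ (mw T).1 → ¬ (mw (add (add G (neg G)) T)).1 := by
        intro h h'
        rcases mw_fst.mp h' with h0 | ⟨K, hK, hw⟩
        · apply h
          refine mw_fst.mpr (Or.inl fun K hK => ?_)
          exact h0 _ (isL_add.mpr (Or.inr ⟨K, hK, rfl⟩))
        · rcases isL_add.mp hK with ⟨D, hD, rfl⟩ | ⟨K', hK', rfl⟩
          · rcases isL_add.mp hD with ⟨G', hG', rfl⟩ | ⟨N', hN', rfl⟩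
            · have := (mw_snd.mp hw).2 (add (add G' (neg G')) T)
                (isR_add.mpr (Or.inl ⟨_, isR_add.mpr (Or.inr ⟨_, isR_neg.mpr ⟨G', hG', rfl⟩,
                  rfl⟩), rfl⟩))
              exact h ((hGL G' hG').1.mp this)
            · obtain ⟨G', hG', rfl⟩ := isL_neg.mp hN'
              have := (mw_snd.mp hw).2 (add (add G' (neg G')) T)
                (isR_add.mpr (Or.inl ⟨_, isR_add.mpr (Or.inl ⟨_, hG', rfl⟩), rfl⟩))
              exact h ((hGR G' hG').1.mp this)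
          · apply h
            exact mw_fst.mpr (Or.inr ⟨K', hK', (hTL K' hK' G hG).2.mp hw⟩)
      exact ⟨⟨fun h => by by_contra hc; exact c3 hc h, c1⟩,
        ⟨fun h => by by_contra hc; exact c4 hc h, c2⟩⟩

/-- Boolean evaluation of the misère outcome. -/
def mwb : Game → Bool × Bool
  | mk m n L R => (decide (m = 0) || (List.finRange m).any fun i => (mwb (L i)).2,
      decide (n ≠ 0) && (List.finRange n).all fun j => (mwb (R j)).1)

theorem mwb_iff : ∀ (G : Game), ((mwb G).1 = true ↔ (mw G).1) ∧ ((mwb G).2 = true ↔ (mw G).2) := by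
  intro G
  induction G with
  | mk m n L R ihL ihR =>
    simp only [mwb, mw, Bool.or_eq_true, decide_eq_true_eq, List.any_eq_true, List.mem_finRange,
      true_and, Bool.and_eq_true, List.all_eq_true, forall_const]
    constructor
    · simp only [ihL]
    · simp only [ihR]

/-- The set `{0, *, Y, X}`. -/
def Base (G : Game) : Prop := G = zero ∨ G = star ∨ G = Y ∨ G = X

theorem invertible_X : Invertible X := by
  have hX : Dicotic X := Rep.dicotic _ _ _ _ _ rfl Rep.X
  refine ⟨hX, neg X, dicotic_neg hX, ?_⟩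
  intro T hT
  have key := mirror Base ?_ ?_ ?_ ?_ T hT X (by unfold Base; tauto)
  · apply outcome_congr
    · rw [key.1, (mw_zero_add T).1]
    · rw [key.2, (mw_zero_add T).2]
  · rintro G (rfl | rfl | rfl | rfl) K ⟨i, rfl⟩
    · exact i.elim0
    · exact Or.inl rfl
    · fin_cases i
      · exact Or.inl rfl
      · exact Or.inr (Or.inl rfl)
    · fin_cases i
      · exact Or.inl rfl
      · exact Or.inr (Or.inl rfl)
  · rintro G (rfl | rfl | rfl | rfl) K ⟨i, rfl⟩
    · exact i.elim0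
    · exact Or.inl rfl
    · exact Or.inr (Or.inl rfl)
    · exact Or.inr (Or.inr (Or.inl rfl))
  · rintro G (rfl | rfl | rfl | rfl)
    · exact (mwb_iff _).1.mp (by decide)
    · exact (mwb_iff _).1.mp (by decide)
    · exact (mwb_iff _).1.mp (by decide)
    · exact (mwb_iff _).1.mp (by decide)
  · rintro G (rfl | rfl | rfl | rfl)
    · rw [← (mwb_iff _).2]; decide
    · rw [← (mwb_iff _).2]; decide
    · rw [← (mwb_iff _).2]; decide
    · rw [← (mwb_iff _).2]; decide

end Game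

open Game

/-- **Negative answer to Q1 of MP_541980_co.** There are an evilly normal pair `(𝒜, 𝒦)` and a game
`G ∈ 𝒦` that is invertible modulo the set of dicots. -/
theorem result : ∃ A K : Set Game, EvillyNormal A K ∧ ∃ G ∈ K, Game.Invertible G :=
  ⟨exA, exK, evillyNormal, X, ⟨1, 0, 0, Rep.X, le_refl 1⟩, invertible_X⟩

end Pool.Agent.Results.MP_541980_co.EvilKernelCounterexample
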